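import Mathlib

namespace Pool.Agent.Results.MP_f888fa_lc.FiniteBasis

/-- Terms of the signature `(0, 1, ⊥, +, -, ·, ÷)`. -/
inductive Tm : Type
  | var : ℕ → Tm
  | zero : Tm
  | one : Tm
  | bot : Tm
  | neg : Tm → Tm
  | add : Tm → Tm → Tm
  | mul : Tm → Tm → Tm
  | div : Tm → Tm → Tm

/-- Algebras of the signature. -/
structure Alg where
  A : Type
  zero : A
  one : A
  bot : A
  neg : A → A
  add : A → A → A
  mul : A → A → A
  div : A → A → A

/-- Value of a term. -/
def Tm.eval (M : Alg) (v : ℕ → M.A) : Tm → M.A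
  | .var n => v n
  | .zero => M.zero
  | .one => M.one
  | .bot => M.bot
  | .neg a => M.neg (a.eval M v)
  | .add a b => M.add (a.eval M v) (b.eval M v)
  | .mul a b => M.mul (a.eval M v) (b.eval M v)
  | .div a b => M.div (a.eval M v) (b.eval M v)

/-- A conditional equation: a list of premises and a conclusion. -/
structure CEq where
  prem : List (Tm × Tm)
  concl : Tm × Tm

/-- Truth of a conditional equation in an algebra. -/
def Holds (M : Alg) (φ : CEq) : Prop :=
  ∀ v, (∀ e ∈ φ.prem, e.1.eval M v = e.2.eval M v) → φ.concl.1.eval M v = φ.concl.2.eval M v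

open Classical in
/-- The common meadow of a field, `none` being `⊥`. -/
noncomputable def meadow (F : Type) [Field F] : Alg where
  A := Option F
  zero := some 0
  one := some 1
  bot := none
  neg x := x.map (fun a => -a)
  add x y := x.bind fun a => y.map fun b => a + b
  mul x y := x.bind fun a => y.map fun b => a * b
  div x y := x.bind fun a => y.bind fun b => if b = 0 then none else some (a * b⁻¹)

/-- `num n` is the numeral `1 + 1 + ⋯ + 1` with `n` summands, for `n ≥ 1`. -/
def num : ℕ → Tm
  | 0 => .zero
  | 1 => .one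
  | n + 2 => .add (num (n + 1)) .one

/-- The conditional equation `0/2 · 0/3 = 0/2 · 0/p → 0/3 = 0/p`. -/
def phi (p : ℕ) : CEq :=
  ⟨[(.mul (.div .zero (num 2)) (.div .zero (num 3)), .mul (.div .zero (num 2)) (.div .zero (num p)))],
    (.div .zero (num 3), .div .zero (num p))⟩

def odd (u : Tm) : Tm := .add (.add u u) .one

def e1 : CEq := ⟨[], (.add (.add (.var 0) (.var 1)) (.var 2), .add (.var 0) (.add (.var 1) (.var 2)))⟩
def e2 : CEq := ⟨[], (.mul .zero .one, .zero)⟩
def e3 : CEq := ⟨[(.mul .zero (.var 0), .zero)], (.mul .zero (.add (.var 0) .one), .zero)⟩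
def e4 : CEq :=
  ⟨[(.mul .zero (.var 0), .zero),
    (.mul (.div .zero (num 2)) (.div .zero (num 3)),
      .mul (.div .zero (num 2)) (.div .zero (odd (.var 0))))],
    (.div .zero (num 3), .div .zero (odd (.var 0)))⟩

lemma valid (F : Type) [Field F] : ∀ φ ∈ [e1, e2, e3, e4], Holds (meadow F) φ := by
  intro φ hφ
  simp only [List.mem_cons, List.not_mem_nil, or_false] at hφ
  rcases hφ with rfl | rfl | rfl | rfl
  · intro v _
    simp only [e1, Tm.eval, meadow]
    rcases v 0 with _ | a <;> rcases v 1 with _ | b <;> rcases v 2 with _ | c <;> simp [add_assoc]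
  · intro v _
    simp [e2, Tm.eval, meadow]
  · intro v h
    have := h _ (List.mem_singleton.2 rfl)
    simp only [e3, Tm.eval, meadow] at this ⊢
    revert this
    rcases v 0 with _ | a <;> simp
  · intro v h
    have h1 := h (.mul .zero (.var 0), .zero) (by simp [e4])
    have h2 := h (.mul (.div .zero (num 2)) (.div .zero (num 3)),
      .mul (.div .zero (num 2)) (.div .zero (odd (.var 0)))) (by simp [e4])
    simp only [e4, odd, num, Tm.eval, meadow] at h1 h2 ⊢
    revert h1 h2
    rcases v 0 with _ | a
    · simp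
    · intro _
      simp only [Option.bind_some, Option.map_some, zero_mul]
      by_cases c : (1 : F) + 1 = 0
      · have : a + a = 0 := by linear_combination a * c
        simp [c, this]
      · simp only [c, if_false, Option.bind_some]
        split_ifs <;> simp

lemma num_add (M : Alg) (h : Holds M e1) (v) (a b : ℕ) :
    (num (a + 1 + (b + 1))).eval M v = M.add ((num (a + 1)).eval M v) ((num (b + 1)).eval M v) := by
  induction b with
  | zero => rfl
  | succ b ih =>
    have := h (fun n => if n = 0 then (num (a + 1)).eval M v else if n = 1 then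
      (num (b + 1)).eval M v else M.one) (by simp [e1])
    change M.add ((num (a + 1 + (b + 1))).eval M v) M.one = _
    rw [ih]
    exact this

lemma zero_num (M : Alg) (h2 : Holds M e2) (h3 : Holds M e3) (v) (a : ℕ) :
    M.mul M.zero ((num (a + 1)).eval M v) = M.zero := by
  induction a with
  | zero => exact h2 v (by simp [e2])
  | succ a ih => exact h3 (fun _ => (num (a + 1)).eval M v) (by simpa [e3, Tm.eval] using ih)

theorem result : ∃ E : List CEq, (∀ φ ∈ E, ∀ (F : Type) [Field F], Holds (meadow F) φ) ∧
    ∀ p : ℕ, p.Prime → 5 ≤ p → ∀ M : Alg, (∀ φ ∈ E, Holds M φ) → Holds M (phi p) := by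
  refine ⟨[e1, e2, e3, e4], fun φ hφ F _ => valid F φ hφ, fun p hp h5 M hM v h => ?_⟩
  obtain ⟨k, rfl⟩ : ∃ k, p = k + 1 + (k + 1) + 1 := by
    rcases hp.eq_two_or_odd with e | e
    · omega
    · exact ⟨p / 2 - 1, by omega⟩
  have e : (num (k + 1 + (k + 1) + 1)).eval M v =
      M.add (M.add ((num (k + 1)).eval M v) ((num (k + 1)).eval M v)) M.one := by
    rw [← num_add M (hM e1 (by simp))]; rfl
  have h1 := h _ (List.mem_singleton.2 rfl)
  have z := zero_num M (hM e2 (by simp)) (hM e3 (by simp)) v k
  have := hM e4 (by simp) (fun _ => (num (k + 1)).eval M v) (by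
    intro q hq
    simp only [e4, List.mem_cons, List.not_mem_nil, or_false] at hq
    rcases hq with rfl | rfl
    · exact z
    · simp only [Tm.eval] at h1
      rw [e] at h1
      exact h1)
  simp only [phi, Tm.eval]
  rw [e]
  exact this

end Pool.Agent.Results.MP_f888fa_lc.FiniteBasis
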